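import Pool.Agent.Helper18_X2.Stmts

/-!
Squad x2, module CLG: `LayG` gives the class.
-/

set_option autoImplicit false

namespace Pool.Agent.PP.X2.H56

open Pool.Agent.Helper51_AWC Pool.Agent.Helper79_WRA Pool.Agent.PP

theorem covS_equiv {K L S : Type} [Group K] [Group L] [Group S] (e : K ≃* L) (h : CovS K S) :
    CovS L S := by
  obtain ⟨h1, f, hf, hk⟩ := h
  refine ⟨?_, f.comp e.symm.toMonoidHom, hf.comp e.symm.surjective, ?_⟩
  · have h2 := congrArg (Subgroup.map e.toMonoidHom) h1
    rw [commutator_def, Subgroup.map_commutator] at h2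
    have h3 : (⊤ : Subgroup K).map e.toMonoidHom = ⊤ :=
      Subgroup.map_top_of_surjective _ e.surjective
    rw [h3] at h2
    rw [commutator_def]
    exact h2
  · intro x hx
    rw [MonoidHom.mem_ker] at hx
    have h4 : e.symm x ∈ Subgroup.center K := hk hx
    rw [Subgroup.mem_center_iff] at h4 ⊢
    intro g
    have h5 := congrArg e (h4 (e.symm g))
    simpa using h5

theorem card_dvd_of_involves {A S : Type} [Group A] [Finite A] [Group S]
    (h : Involves A S) : Nat.card S ∣ Nat.card A := by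
  obtain ⟨B, f, hf⟩ := h
  exact (Subgroup.card_dvd_of_surjective f hf).trans (Subgroup.card_subgroup_dvd_card B)

theorem clg (hP : PrmStmt) (hF : SqfStmt) (_ : QuaStmt) : ClgStmt := by
  intro ℓ _ 𝒜 G _ _ N E hEn hEN hE hM
  obtain ⟨I, _, K, hcomm, hsup, hcov⟩ := hE
  let J : I → Prop := fun i => ∃ (S : Type) (_ : Group S) (_ : Finite S), NonabSimple S ∧
    ℓ ∣ Nat.card S ∧ 𝒜 S ∧ CovS (K i) S
  let E₁ : Subgroup G := ⨆ i : {i // J i}, K i
  have hE₁ : E₁ ≤ E := by
    rw [← hsup]
    exact iSup_le fun i => le_iSup K i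
  have hlay : LayD 1 (fun _ _ _ => True) E I K := by
    refine ⟨hcomm, hsup, fun i => ?_⟩
    obtain ⟨S, g1, g2, h1, h2, h3⟩ := hcov i
    exact ⟨S, g1, g2, h1, one_dvd _, trivial, h3⟩
  obtain ⟨-, hperm, -, -⟩ := hP 1 (fun _ _ _ => True) G E I K hlay
  have hnorm : E₁.Normal := by
    constructor
    intro x hx g
    have h1 : E₁.map (MulAut.conj g).toMonoidHom ≤ E₁ := by
      rw [Subgroup.map_iSup]
      apply iSup_le
      rintro ⟨i, hi⟩
      obtain ⟨j, hj⟩ := hperm g (by
        rw [Subgroup.normalizer_eq_top]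
        exact Subgroup.mem_top g) i
      have hJ : J j := by
        obtain ⟨S, g1, g2, h1, h2, h3, h4⟩ := hi
        refine ⟨S, g1, g2, h1, h2, h3, ?_⟩
        have e : K i ≃* (K i).map (MulAut.conj g).toMonoidHom :=
          (K i).equivMapOfInjective _ (MulAut.conj g).injective
        rw [hj] at e
        exact covS_equiv e h4
      show (K i).map (MulAut.conj g).toMonoidHom ≤ E₁
      rw [hj]
      exact le_iSup (fun i : {i // J i} => K i) ⟨j, hJ⟩
    have h2 : (MulAut.conj g).toMonoidHom x ∈ E₁ := h1 (Subgroup.mem_map_of_mem _ hx)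
    simpa using h2
  refine ⟨E₁, hnorm, hE₁.trans hEN, ?_, ?_⟩
  · refine ⟨{i // J i}, inferInstance, fun i => K i, ?_, rfl, fun i => i.2⟩
    intro i j hij
    exact hcomm i j fun h => hij (Subtype.ext h)
  · intro S _ _ hS hl L hL f hf hf1
    let L' : Subgroup L := E.subgroupOf L
    have hLn : (L'.map f).Normal := (inferInstance : L'.Normal).map f hf
    rcases hS.1.eq_bot_or_eq_top_of_normal _ hLn with h | h
    · refine hM S hS hl L hL f hf ?_
      intro x hx
      have h1 : f x ∈ L'.map f := ⟨x, hx, rfl⟩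
      rw [h, Subgroup.mem_bot] at h1
      exact h1
    · exfalso
      -- the subgroup `L ∩ E` of `G`
      have hle : L ⊓ E ≤ L := inf_le_left
      let f' : (L ⊓ E : Subgroup G) →* S := f.comp (Subgroup.inclusion hle)
      have hf' : Function.Surjective f' := by
        intro s
        have h1 : s ∈ L'.map f := by rw [h]; exact Subgroup.mem_top s
        obtain ⟨x, hx, rfl⟩ := h1
        exact ⟨⟨x, ⟨x.2, hx⟩⟩, rfl⟩
      obtain ⟨j, L₂, f₂, hL₂, hf₂, hf₃⟩ := hF G I K E₁ hcomm
        (by rw [Subgroup.normalizer_eq_top]; exact le_top) (by rw [hsup]; exact hE₁) S hS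
        (L ⊓ E) f' (by rw [hsup]; exact inf_le_right) hf' (fun x hx => hf1 _ hx)
      have hnj : ¬ J j := by
        intro hj
        have h1 : ∀ x : L₂, f₂ x = 1 := fun x =>
          hf₃ x (le_iSup (fun i : {i // J i} => K i) ⟨j, hj⟩ (hL₂ x.2))
        obtain ⟨a, b, hab⟩ := hS.2
        obtain ⟨x, rfl⟩ := hf₂ a
        obtain ⟨y, rfl⟩ := hf₂ b
        apply hab
        rw [h1, h1]
      obtain ⟨T, _, _, hT, hTA, hc⟩ := hcov j
      obtain ⟨p, hp, hpk⟩ := hc.2
      have h2 : Involves T S :=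
        Involves.of_central hS p hpk
          (Involves.of_le hL₂ (Involves.of_surjective f₂ hf₂ (Involves.refl S)))
      have h3 : ℓ ∣ Nat.card T := hl.trans (card_dvd_of_involves h2)
      exact hnj ⟨T, inferInstance, inferInstance, hT, h3, hTA h3, hc⟩

end Pool.Agent.PP.X2.H56
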