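import Pool.Agent.Helper18_X2.Stmts

/-!
Squad x2, module CLN: chief factors in the class.
-/

set_option autoImplicit false

namespace Pool.Agent.PP.X2.H56

open Pool.Agent.Helper51_AWC Pool.Agent.Helper79_WRA Pool.Agent.PP

/-- the factors are normalised by the product and the centre -/
theorem lay_le_normalizer {ℓ : ℕ} {𝒜 : Fam} {H : Type} [Group H] {E : Subgroup H} {I : Type}
    {K : I → Subgroup H} (h : LayD ℓ 𝒜 E I K) (i : I) :
    E ⊔ Subgroup.center H ≤ Subgroup.normalizer (K i : Set H) := by
  apply sup_le
  · rw [← h.sup]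
    apply iSup_le
    intro j
    by_cases hji : j = i
    · rw [hji]
      exact Subgroup.le_normalizer
    · intro x hx
      rw [Subgroup.mem_normalizer_iff]
      intro y
      constructor
      · intro hy
        have := h.comm j i hji x hx y hy
        rw [this, mul_inv_cancel_right]
        exact hy
      · intro hy
        have := h.comm j i hji x⁻¹ (inv_mem hx) _ hy
        have h2 : x⁻¹ * (x * y * x⁻¹) * x = y := by group
        rw [this] at h2
        have h3 : x * y * x⁻¹ = y := by simpa using h2
        rwa [h3] at hy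
  · intro x hx
    rw [Subgroup.mem_normalizer_iff]
    intro y
    have : x * y * x⁻¹ = y := by
      rw [← Subgroup.mem_center_iff.1 hx y]
      group
    rw [this]

theorem cln (hQ : QuaStmt) (hL : LybStmt) : ClnStmt := by
  intro ℓ _ 𝒜 G _ _ N hC hN
  obtain ⟨hNn, hNc, hmin⟩ := hC
  obtain ⟨E, hEn, hEN, hE, hM⟩ := hN
  have hT := hmin (E ⊔ (N ⊓ Subgroup.center G)) inferInstance le_sup_right
    (sup_le hEN inf_le_left)
  rcases hT with hT | hT
  · left
    have h1 : E ≤ Subgroup.center G := by
      have : E ≤ E ⊔ (N ⊓ Subgroup.center G) := le_sup_left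
      rw [hT] at this
      exact this.trans inf_le_right
    have h2 : E = ⊥ := (hL ℓ 𝒜 G E hE).2.1 (fun x _ y hy =>
      Subgroup.mem_center_iff.1 (h1 hy) x)
    intro S _ _ hS hl hinv
    obtain ⟨A, f, hf⟩ := hinv
    let e := A.equivMapOfInjective N.subtype N.subtype_injective
    refine hM S hS hl (A.map N.subtype) ?_ (f.comp e.symm.toMonoidHom)
      (hf.comp e.symm.surjective) ?_
    · rintro _ ⟨x, _, rfl⟩
      exact x.2
    · intro x hx
      rw [h2, Subgroup.mem_bot] at hx
      have : x = 1 := Subtype.ext hx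
      rw [this, map_one]
  · right
    have hNE : N ≤ E ⊔ Subgroup.center G := by
      calc N = E ⊔ (N ⊓ Subgroup.center G) := hT.symm
        _ ≤ _ := sup_le_sup_left inf_le_right _
    refine ⟨E, hEn, hEN, hE, hNE, ?_⟩
    intro hsimple
    obtain ⟨I, _, K, hK⟩ := hE
    have hI : Nonempty I := by
      by_contra hI
      rw [not_nonempty_iff] at hI
      apply hNc
      have : E = ⊥ := by rw [← hK.sup]; exact iSup_of_empty _
      rw [this, bot_sup_eq] at hNE
      exact hNE
    obtain ⟨i⟩ := hI
    obtain ⟨S, _, _, hS, hl, hSA, hcov⟩ := hK.cov i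
    have hKE : K i ≤ E := by rw [← hK.sup]; exact le_iSup K i
    have hKN : K i ≤ N := hKE.trans hEN
    refine ⟨S, inferInstance, inferInstance, hS, hl, hSA, ?_⟩
    obtain ⟨-, q2, -, q4, -, -, -⟩ := hQ (K i) S hS hcov
    let φ : K i →* (N ⧸ (Subgroup.center G).subgroupOf N) :=
      (QuotientGroup.mk' ((Subgroup.center G).subgroupOf N)).comp (Subgroup.inclusion hKN)
    have hφ : ∀ x : K i, φ x = 1 ↔ (x : G) ∈ Subgroup.center G := by
      intro x
      show ((Subgroup.inclusion hKN x : N) : N ⧸ (Subgroup.center G).subgroupOf N) = 1 ↔ _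
      rw [QuotientGroup.eq_one_iff, Subgroup.mem_subgroupOf]
      rfl
    have hnt : ¬ ∀ x, φ x = 1 := by
      intro h0
      apply q2
      intro x y
      apply Subtype.ext
      exact (Subgroup.mem_center_iff.1 ((hφ x).1 (h0 x)) y).symm
    have hrn : φ.range.Normal := by
      constructor
      rintro _ ⟨x, rfl⟩ g
      obtain ⟨n, rfl⟩ := QuotientGroup.mk'_surjective _ g
      have h3 : (n : G) * x * (n : G)⁻¹ ∈ K i :=
        (Subgroup.mem_normalizer_iff.1 (lay_le_normalizer hK i (hNE n.2)) x).1 x.2
      refine ⟨⟨_, h3⟩, ?_⟩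
      show QuotientGroup.mk' _ _ = QuotientGroup.mk' _ n * QuotientGroup.mk' _ _ *
        (QuotientGroup.mk' _ n)⁻¹
      rw [← map_mul, ← map_inv, ← map_mul]
      congr 1
    have hsurj : Function.Surjective φ := by
      rw [← MonoidHom.range_eq_top]
      rcases hsimple.eq_bot_or_eq_top_of_normal φ.range hrn with h | h
      · exfalso
        apply hnt
        intro x
        have : φ x ∈ φ.range := ⟨x, rfl⟩
        rw [h, Subgroup.mem_bot] at this
        exact this
      · exact h
    have hns : NonabSimple (N ⧸ (Subgroup.center G).subgroupOf N) := by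
      refine ⟨hsimple, ?_⟩
      by_contra hab
      push Not at hab
      apply hnt
      intro x
      have h4 : commutator (K i) ≤ φ.ker := by
        rw [commutator_def, Subgroup.commutator_le]
        intro a _ b _
        rw [MonoidHom.mem_ker, map_commutatorElement, commutatorElement_def, hab (φ a) (φ b)]
        group
      rw [hcov.1] at h4
      exact h4 (Subgroup.mem_top x)
    obtain ⟨e⟩ := q4 _ hns φ hsurj
    exact ⟨e.symm⟩

end Pool.Agent.PP.X2.H56
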