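import Pool.Agent.Helper18_X2.Stmts

/-!
Squad x2, module CLO.
-/

set_option autoImplicit false

namespace Pool.Agent.PP.X2.H56

open Pool.Agent.Helper51_AWC Pool.Agent.Helper79_WRA Pool.Agent.PP

theorem clo : CloStmt := by
  intro ℓ _ 𝒜 hA S _ _ hS hl hSA Q hQ hp hint
  rcases hA S hS hl hSA with h | h
  · exfalso
    obtain ⟨α, hα⟩ := Subgroup.ne_bot_iff_exists_ne_one.1 hQ
    obtain ⟨n, hn⟩ := hp α
    obtain ⟨s, hs⟩ := h (α : MulAut S) ⟨n, by
      have := congrArg Subtype.val hn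
      simpa using this⟩
    have h1 : (α : MulAut S) ∈ Q ⊓ (MulAut.conj (G := S)).range := ⟨α.2, ⟨s, hs.symm⟩⟩
    rw [hint, Subgroup.mem_bot] at h1
    exact hα (Subtype.ext h1)
  · right; right
    intro T _ _ hT hlT hinv
    exact h T hT hlT (Involves.of_subgroup hinv)

end Pool.Agent.PP.X2.H56
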